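import Mathlib
import Pool.Agent.W721.RD.FIB
import Pool.Agent.W721.RD.C2M
import Pool.Agent.W327.RD.Dyn
import Pool.Agent.W349.CD.NU
import Pool.Agent.Helper99.LF.ScalSeq

/-!
# Almost every sequence of multiples of arbitrary rational maps

The estimate of the logarithmic area for the multiples of one rational map is that of the starting
files (`Pool.Agent.W721.RD`, `W327.RD`).
-/

set_option autoImplicit false

open Polynomial Filter Topology MeasureTheory

namespace Pool.Agent.Results.MP_8f2e1c_an.AlmostSureSequences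

open Pool.Agent.Helper99.LF (FewFail)

/-- `P / Q` is in lowest terms and every critical point (point of the Riemann sphere where the map
is not locally injective) has an orbit converging to an attracting periodic cycle. This is word
for word the condition of the frozen statement `S05373`. -/
def Hyperbolic (P Q : Polynomial ℂ) : Prop :=
  IsCoprime P Q ∧ ∃ f : OnePoint ℂ → OnePoint ℂ, Continuous f ∧
    (∀ z : ℂ, Q.eval z ≠ 0 →
      f (OnePoint.some z) = OnePoint.some (P.eval z / Q.eval z)) ∧
    ∀ c : OnePoint ℂ, (¬ ∃ U ∈ nhds c, Set.InjOn f U) →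
      ∃ z : OnePoint ℂ, ∃ n : ℕ, 0 < n ∧ f^[n] z = z ∧
        (∃ U ∈ nhds z, ∀ w ∈ U,
          Filter.Tendsto (fun k : ℕ => f^[n * k] w) Filter.atTop (nhds z)) ∧
        Filter.Tendsto (fun k : ℕ => f^[n * k] c) Filter.atTop (nhds z)

/-- The monic polynomial with roots `z i`. -/
noncomputable def withRoots {N : ℕ} (z : Fin N → ℂ) : ℂ[X] := ∏ i, (X - C (z i))

/-- The moduli of all zeros `z i` and of all poles `p i` are nonzero and have ratios at most `L`. -/
def Comparable {N : ℕ} (L : ℝ) (z p : Fin N → ℂ) : Prop :=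
  (∀ i, z i ≠ 0 ∧ p i ≠ 0) ∧ ∀ i j, ‖z i‖ ≤ L * ‖z j‖ ∧ ‖z i‖ ≤ L * ‖p j‖ ∧
    ‖p i‖ ≤ L * ‖z j‖ ∧ ‖p i‖ ≤ L * ‖p j‖

/-- **Almost every sequence of multiples of arbitrary rational maps.** Let `R_k` be arbitrary
rational maps of degrees `d k ≥ 2` with value `1` at infinity and with zeros `z k` and poles `p k`,
all different from `0`, whose moduli have ratios at most `L k`. Let `b k ≠ 0` and `m k ≥ 1`, and put
`s k = √(d k) log (d k * L k) / m k`.

If the sum of the `s k` is finite then for Lebesgue almost every complex number `α` the maps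
`α ^ (m k) * b k * R_k` are hyperbolic for ALL large `k`. If the sum is infinite and `s` is bounded
then for almost every `α`, for all `δ > 0` and all large `N`, at most `(∑_{k < N} s k) ^ (1 + δ)` of
the first `N` of these maps are not hyperbolic.

For instance, if the degrees and the `L k` are bounded, then for almost every `α` all the maps
`α ^ ((k + 1) ^ 2) * b k * R_k` with `k` large are hyperbolic, and all but at most
`(log N) ^ (1 + δ)` of the first `N` maps `α ^ (k + 1) * b k * R_k`. -/
theorem result :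
    ∀ (d : ℕ → ℕ) (z p : ∀ k, Fin (d k) → ℂ) (L : ℕ → ℝ) (b : ℕ → ℂ) (m : ℕ → ℕ) (s : ℕ → ℝ),
      (∀ k, 2 ≤ d k) → (∀ k, Comparable (L k) (z k) (p k)) → (∀ k i j, z k i ≠ p k j) →
      (∀ k, b k ≠ 0) → (∀ k, 1 ≤ m k) →
      (∀ k, s k = Real.sqrt (d k) * Real.log (d k * L k) / m k) →
      (Summable s → ∀ᵐ α : ℂ, ∀ᶠ k in atTop,
        Hyperbolic (C (α ^ m k * b k) * withRoots (z k)) (withRoots (p k))) ∧
      (¬ Summable s → (∃ c, ∀ k, s k ≤ c) → ∀ᵐ α : ℂ, ∀ δ : ℝ, 0 < δ →
        FewFail (fun k => Hyperbolic (C (α ^ m k * b k) * withRoots (z k)) (withRoots (p k)))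
          (fun N => (∑ k ∈ Finset.range N, s k) ^ (1 + δ))) := by
  intro d z p L b m s hd hL hzp hb hm hs
  have hNU := W349.CD.NU_holds
  set E : ∀ k, Set ℂ := fun k =>
    {a : ℂ | ¬ Hyperbolic (C a * withRoots (z k)) (withRoots (p k))} with hE
  have h1 : ∀ k, Pool.Agent.Helper99.FA.la (E k) ≤
      ENNReal.ofReal (420 * (Real.sqrt (d k) * Real.log (d k * L k))) := by
    intro k
    rw [← mul_assoc]
    exact Pool.Agent.W721.RD.RFIB_holds hNU Pool.Agent.W721.RD.C2M_holds W327.RD.rdyn
      (d k) (hd k) (z k) (p k) (L k) (fun i => ((hL k).1 i).1) (fun i => ((hL k).1 i).2)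
      (hzp k) (hL k).2
  have hL1 : ∀ k, 1 ≤ L k := by
    intro k
    have h := ((hL k).2 ⟨0, by have := hd k; omega⟩ ⟨0, by have := hd k; omega⟩).1
    have h0 : 0 < ‖z k ⟨0, by have := hd k; omega⟩‖ := norm_pos_iff.2 ((hL k).1 _).1
    by_contra hc
    nlinarith
  have hs0 : ∀ k, 0 ≤ Real.sqrt (d k) * Real.log (d k * L k) := by
    intro k
    have h2 : (2 : ℝ) ≤ d k := by exact_mod_cast hd k
    have h3 := hL1 k
    have h4 : 0 ≤ Real.log (d k * L k) := Real.log_nonneg (by nlinarith)
    positivity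
  obtain ⟨h2, h3⟩ := Pool.Agent.Helper99.LF.scal_seq (E := E)
    (r := fun k => Real.sqrt (d k) * Real.log (d k * L k)) (c := 420) (by norm_num) hs0 h1
    hb hm hs
  refine ⟨fun h => ?_, fun h h' => ?_⟩
  · filter_upwards [h2 h] with α hα
    filter_upwards [hα] with k hk
    by_contra hcon
    exact hk hcon
  · filter_upwards [h3 h h'] with α hα δ hδ
    have h3 := hα δ hδ
    simpa only [hE, Set.mem_ofPred_eq, not_not] using h3

end Pool.Agent.Results.MP_8f2e1c_an.AlmostSureSequences
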