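import Mathlib
import Pool.Agent.Helper23V.EndG

/-! Approximation of a rational map off its attracting basins by hyperbolic maps of any kind: such
approximants can be changed into hyperbolic rational maps of the same degree, in the slices with
prescribed attracting dynamics. In particular density of hyperbolicity in a degree `D` implies
density of hyperbolicity at all rational maps of degree at most `D` with an attracting cycle. -/

set_option autoImplicit false

open Topology Filter MeasureTheory Metric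

namespace Pool.Agent.Results.MP_8f2e1c_an.ApproximationOffBasins

/-- `f` is the rational map `P / Q` on the Riemann sphere. -/
def IsRationalMap (P Q : Polynomial ℂ) (f : OnePoint ℂ → OnePoint ℂ) : Prop :=
  Continuous f ∧ ∀ z : ℂ, Q.eval z ≠ 0 →
    f (OnePoint.some z) = OnePoint.some (P.eval z / Q.eval z)

/-- `P / Q` is a rational map of degree `d`. -/
def HasDegree (d : ℕ) (P Q : Polynomial ℂ) : Prop :=
  IsCoprime P Q ∧ max P.natDegree Q.natDegree = d

/-- The coefficients of `P' / Q'` are at distance less than `ε` from those of `P / Q`. -/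
def Close (ε : ℝ) (P Q P' Q' : Polynomial ℂ) : Prop :=
  ∀ i : ℕ, ‖P'.coeff i - P.coeff i‖ < ε ∧ ‖Q'.coeff i - Q.coeff i‖ < ε

/-- `a` is a point of an attracting cycle of `f` whose period divides `n`: `f^n` fixes `a` and the
iterates of `f^n` converge to `a` uniformly on a neighbourhood of `a`. -/
def IsSink (f : OnePoint ℂ → OnePoint ℂ) (n : ℕ) (a : OnePoint ℂ) : Prop :=
  0 < n ∧ f^[n] a = a ∧
    ∃ U ∈ nhds a, ∀ V ∈ nhds a, ∀ᶠ k : ℕ in Filter.atTop, ∀ w ∈ U, f^[n * k] w ∈ V

/-- `z` is in the basin of an attracting cycle of `f`. -/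
def Attracted (f : OnePoint ℂ → OnePoint ℂ) (z : OnePoint ℂ) : Prop :=
  ∃ (n : ℕ) (a : OnePoint ℂ), IsSink f n a ∧
    Filter.Tendsto (fun k : ℕ => f^[n * k] z) Filter.atTop (nhds a)

/-- A local coordinate at the point `a` of the sphere, with `chart a 0 = a`: for `a = ∞` it is
`w ↦ 1 / w`, and for a point `a` of the plane it is `w ↦ a + w`. -/
noncomputable def chart (a : OnePoint ℂ) (w : ℂ) : OnePoint ℂ :=
  match a with
  | none => open Classical in if w = 0 then OnePoint.infty else OnePoint.some w⁻¹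
  | some a => OnePoint.some (a + w)

/-- `g` is holomorphic at `a` (on a neighbourhood of `a`): in the local coordinates at `a` and
`g a` it is an analytic function. -/
def HolomorphicAt (g : OnePoint ℂ → OnePoint ℂ) (a : OnePoint ℂ) : Prop :=
  ∃ k : ℂ → ℂ, AnalyticAt ℂ k 0 ∧ ∀ᶠ w in nhds (0 : ℂ), g (chart a w) = chart (g a) (k w)

/-- `f^p` fixes `a`, with multiplier `ρ` (the derivative of `f^p` at `a` in the local
coordinate). -/
def HasMultiplier (f : OnePoint ℂ → OnePoint ℂ) (p : ℕ) (a : OnePoint ℂ) (ρ : ℂ) : Prop :=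
  ∃ g : ℂ → ℂ, g 0 = 0 ∧ HasDerivAt g ρ 0 ∧
    ∀ᶠ w in nhds (0 : ℂ), f^[p] (chart a w) = chart a (g w)

/-- `φ` is conformal at `a`: in the local coordinates at `a` and `φ a` it is an analytic function
with nonzero derivative. -/
def ConformalAt (φ : OnePoint ℂ → OnePoint ℂ) (a : OnePoint ℂ) : Prop :=
  ∃ g : ℂ → ℂ, AnalyticAt ℂ g 0 ∧ g 0 = 0 ∧ deriv g 0 ≠ 0 ∧
    ∀ᶠ w in nhds (0 : ℂ), φ (chart a w) = chart (φ a) (g w)

/-- `f` is hyperbolic: every critical point (point where `f` is not locally injective) is in the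
basin of an attracting cycle. -/
def Hyperbolic (f : OnePoint ℂ → OnePoint ℂ) : Prop :=
  ∀ c : OnePoint ℂ, (¬ ∃ U ∈ nhds c, Set.InjOn f U) → Attracted f c

/-- `g` is hyperbolic off `V`: every critical point of `g` whose orbit stays outside `V` is in the
basin of an attracting cycle. (Nothing is asked if the orbit enters `V`.) -/
def HyperbolicOff (V : Set (OnePoint ℂ)) (g : OnePoint ℂ → OnePoint ℂ) : Prop :=
  ∀ c : OnePoint ℂ, (∀ k : ℕ, g^[k] c ∉ V) → (¬ ∃ U ∈ nhds c, Set.InjOn g U) → Attracted g c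

/-- The pair `(P, Q)` is a limit of hyperbolic rational maps of degree `D`. The pair may be
degenerate: it may have a common factor, or both degrees may be less than `D`. -/
def LimitOfHyperbolic (D : ℕ) (P Q : Polynomial ℂ) : Prop :=
  ∀ ε : ℝ, 0 < ε → ∃ (P₁ Q₁ : Polynomial ℂ) (g : OnePoint ℂ → OnePoint ℂ), HasDegree D P₁ Q₁ ∧
    Close ε P Q P₁ Q₁ ∧ IsRationalMap P₁ Q₁ g ∧ Hyperbolic g

/-- `φ` is a conformal conjugacy from `f` to `f'` on the set `V`, and multipliers are kept. -/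
def ConjugacyOn (V : Set (OnePoint ℂ)) (φ : OnePoint ℂ → OnePoint ℂ)
    (f f' : OnePoint ℂ → OnePoint ℂ) : Prop :=
  (∀ z ∈ V, f' (φ z) = φ (f z)) ∧ (∀ z ∈ V, ConformalAt φ z) ∧
    ∀ (n : ℕ) (a : OnePoint ℂ) (ρ : ℂ), a ∈ V → HasMultiplier f n a ρ → HasMultiplier f' n (φ a) ρ

/-- `P' / Q'` is a rational map of degree `d` with map `f'`, at distance less than `ε` from `P / Q`,
and `φ` is a homeomorphism with graph in `W` which is a conformal conjugacy from `f` to `f'` on
`V`. -/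
def InSlice (d : ℕ) (P Q : Polynomial ℂ) (f : OnePoint ℂ → OnePoint ℂ) (V : Set (OnePoint ℂ))
    (ε : ℝ) (W : Set (OnePoint ℂ × OnePoint ℂ)) (P' Q' : Polynomial ℂ)
    (f' : OnePoint ℂ → OnePoint ℂ) (φ : OnePoint ℂ ≃ₜ OnePoint ℂ) : Prop :=
  HasDegree d P' Q' ∧ Close ε P Q P' Q' ∧ IsRationalMap P' Q' f' ∧ (∀ z, (z, φ z) ∈ W) ∧
    ConjugacyOn V φ f f'

open Pool.Agent.H790R3.RB in
/-- Let `f = P / Q` be a rational map of degree `d ≥ 2` and let `K` be a nonempty compact set of
points which are attracted by attracting cycles of `f`. There are an open set `V` which contains `K`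
and a compact set `D` of attracted points which contains `V`, with `f (D) ⊆ V`, such that the
following hold for all `ε > 0` and all neighbourhoods `W` of the diagonal.

(1) There is a neighbourhood `W₁` of the diagonal such that every map `g` which is holomorphic off
`V` (for example a rational map of any degree) with `(f z, g z) ∈ W₁` for all `z` off `V` can be
changed into a rational map `f'` of degree `d` at distance less than `ε` from `f`, which is
conformally conjugate to `f` on `V` and topologically conjugate to `g` off `D`, by one homeomorphism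
`φ` of the sphere with graph in `W`. If `g` is hyperbolic off `V` then `f'` is hyperbolic.

(2) Let `H ≠ 0` be a polynomial of degree at most `m` with all its zeros in `K` (and `∞ ∈ K` if the
degree of `H` is less than `m`). If the boundary pair `(H P, H Q)` is a limit of hyperbolic rational
maps of degree `m + d` then there is a hyperbolic rational map `f'` of degree `d` at distance less
than `ε` from `f`, which is conformally conjugate to `f` on `V`, as in (1).

(3) If for some `D ≥ d` all rational maps of degree `D` are limits of hyperbolic rational maps of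
degree `D` then there is a hyperbolic rational map `f'` of degree `d` as in (2). -/
theorem result (d : ℕ) (hd : 2 ≤ d) (P Q : Polynomial ℂ) (hPQ : HasDegree d P Q)
    (f : OnePoint ℂ → OnePoint ℂ) (hf : IsRationalMap P Q f) (K : Set (OnePoint ℂ))
    (hK : IsCompact K) (hKn : K.Nonempty) (hKa : ∀ z ∈ K, Attracted f z) :
    ∃ V D : Set (OnePoint ℂ), IsOpen V ∧ IsCompact D ∧ K ⊆ V ∧ V ⊆ D ∧ (∀ z ∈ D, f z ∈ V) ∧
      (∀ z ∈ D, Attracted f z) ∧
      ∀ ε : ℝ, 0 < ε → ∀ W : Set (OnePoint ℂ × OnePoint ℂ), IsOpen W → (∀ z, (z, z) ∈ W) →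
        (∃ W₁ : Set (OnePoint ℂ × OnePoint ℂ), IsOpen W₁ ∧ (∀ z, (z, z) ∈ W₁) ∧
          ∀ g : OnePoint ℂ → OnePoint ℂ, (∀ z ∉ V, HolomorphicAt g z) →
            (∀ z ∉ V, (f z, g z) ∈ W₁) →
            ∃ (P' Q' : Polynomial ℂ) (f' : OnePoint ℂ → OnePoint ℂ) (φ : OnePoint ℂ ≃ₜ OnePoint ℂ),
              InSlice d P Q f V ε W P' Q' f' φ ∧ (∀ z ∉ D, f' (φ z) = φ (g z)) ∧
              (∀ z ∈ D, f' (φ z) ∈ φ '' V) ∧ (HyperbolicOff V g → Hyperbolic f')) ∧
        (∀ (m : ℕ) (H : Polynomial ℂ), H ≠ 0 → H.natDegree ≤ m →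
          (∀ z : ℂ, H.eval z = 0 → OnePoint.some z ∈ K) →
          (H.natDegree < m → OnePoint.infty ∈ K) →
          LimitOfHyperbolic (m + d) (H * P) (H * Q) →
            ∃ (P' Q' : Polynomial ℂ) (f' : OnePoint ℂ → OnePoint ℂ) (φ : OnePoint ℂ ≃ₜ OnePoint ℂ),
              InSlice d P Q f V ε W P' Q' f' φ ∧ Hyperbolic f') ∧
        ((∃ D : ℕ, d ≤ D ∧ ∀ P₁ Q₁ : Polynomial ℂ, HasDegree D P₁ Q₁ →
          LimitOfHyperbolic D P₁ Q₁) →
            ∃ (P' Q' : Polynomial ℂ) (f' : OnePoint ℂ → OnePoint ℂ) (φ : OnePoint ℂ ≃ₜ OnePoint ℂ),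
              InSlice d P Q f V ε W P' Q' f' φ ∧ Hyperbolic f') := by
  have hd1 : 1 ≤ d := by omega
  obtain ⟨h1, h2⟩ := PQ SP d hd1
  obtain ⟨x, hx, hx0, hx1, hxu⟩ := h2 P Q hPQ.1 hPQ.2
  have hfx : f = sp x := hxu f hf.1 hf.2
  subst hfx
  obtain ⟨V, D, hV, hD, hKV, hVD, hDV, hDa, H0⟩ := Pool.Agent.Helper23V.mainG hd hx hK hKn hKa
  have hfV : ∀ z ∈ V, sp x z ∈ V := fun z hz => hDV z (hVD hz)
  refine ⟨V, D, hV, hD.isCompact, hKV, hVD, hDV, hDa, fun ε hε W hW hWd => ?_⟩
  obtain ⟨W₁, hW₁, hW₁d, H1⟩ := H0 ε hε W hW hWd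
  -- the general step
  have step : ∀ (x' : CV d) (φ : OnePoint ℂ ≃ₜ OnePoint ℂ), ND x' → ‖x' - x‖ < ε →
      (∀ z, (z, φ z) ∈ W) →
      (∀ z ∈ V, sp x' (φ z) = φ (sp x z)) → (∀ z ∈ V, Pool.Agent.Helper23T.HolAt φ z) →
      InSlice d P Q (sp x) V ε W (pol x' 0) (pol x' 1) (sp x') φ := by
    intro x' φ hx' hcl hφ hconj hhol
    obtain ⟨hcop, hmax, -, -, hev⟩ := h1 x' hx'
    refine ⟨⟨hcop, hmax⟩, fun i => ⟨?_, ?_⟩, ⟨(SP d x' hd1 hx').1, hev⟩, hφ, hconj,
      fun z hz => Pool.Agent.Helper23T.hol_chart (hhol z hz), fun n a ρ ha hm => ?_⟩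
    · rw [← hx0]
      exact Pool.Agent.Helper23T.coef_lt hε hcl 0 i
    · rw [← hx1]
      exact Pool.Agent.Helper23T.coef_lt hε hcl 1 i
    · exact Pool.Agent.Helper23T.mul_conj hV hfV hconj hhol ha hm
  -- the second part
  have part2 : ∀ (m : ℕ) (H : Polynomial ℂ), H ≠ 0 → H.natDegree ≤ m →
      (∀ z : ℂ, H.eval z = 0 → OnePoint.some z ∈ K) → (H.natDegree < m → OnePoint.infty ∈ K) →
      LimitOfHyperbolic (m + d) (H * P) (H * Q) →
        ∃ (P' Q' : Polynomial ℂ) (f' : OnePoint ℂ → OnePoint ℂ) (φ : OnePoint ℂ ≃ₜ OnePoint ℂ),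
          InSlice d P Q (sp x) V ε W P' Q' f' φ ∧ Hyperbolic f' := by
    intro m H hH hm hz hi hlim
    have hC : IsCompact Vᶜ := hV.isClosed_compl.isCompact
    have hev := Pool.Agent.Helper23V.ev_mul hx hm hC (fun z h0 hz' => hz' (hKV (hz z h0))) (by
      rcases hm.lt_or_eq with h | h
      · right
        exact fun h' => h' (hKV (hi h))
      · left
        rw [← h]
        exact Polynomial.leadingCoeff_ne_zero.2 hH) hW₁ hW₁d
    rw [hx0, hx1] at hev
    obtain ⟨δ, hδ, hb⟩ := Metric.eventually_nhds_iff_ball.1 hev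
    obtain ⟨P₁, Q₁, g, hPQ₁, hcl, hg, hgh⟩ := hlim δ hδ
    have hD1 : 1 ≤ m + d := by omega
    obtain ⟨y, hy, hy0, hy1, hyu⟩ := (PQ SP (m + d) hD1).2 P₁ Q₁ hPQ₁.1 hPQ₁.2
    have hgy : g = sp y := hyu g hg.1 hg.2
    subst hgy
    have hdP : (H * P).natDegree ≤ m + d := Polynomial.natDegree_mul_le.trans
      (add_le_add hm (by rw [← hPQ.2]; exact le_max_left _ _))
    have hdQ : (H * Q).natDegree ≤ m + d := Polynomial.natDegree_mul_le.trans
      (add_le_add hm (by rw [← hPQ.2]; exact le_max_right _ _))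
    obtain ⟨e0, e1⟩ := Pool.Agent.R239.Fat.pol_mkv hdP hdQ
    have hyx : ‖y - Pool.Agent.R239.Fat.mkv (m + d) (H * P) (H * Q)‖ < δ := by
      refine Pool.Agent.Helper23T.norm_lt_of_coef hδ fun i j => ?_
      fin_cases i
      · show ‖(pol y 0).coeff j - (pol _ 0).coeff j‖ < δ
        rw [hy0, e0]
        exact (hcl j).1
      · show ‖(pol y 1).coeff j - (pol _ 1).coeff j‖ < δ
        rw [hy1, e1]
        exact (hcl j).2
    have hclose := hb y (by rwa [mem_ball, dist_eq_norm])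
    obtain ⟨φ, x', hx', hhyp, hcl', hφ, hconj, -, -, hhol⟩ :=
      H1 (sp y) (fun z _ => Pool.Agent.Helper23V.hol_sp hy z) hclose
    exact ⟨pol x' 0, pol x' 1, sp x', φ, step x' φ hx' hcl' hφ hconj hhol,
      hhyp fun c _ hc => hgh c hc⟩
  refine ⟨⟨W₁, hW₁, hW₁d, fun g hg hgW => ?_⟩, part2, ?_⟩
  · obtain ⟨φ, x', hx', hhyp, hcl', hφ, hconj, hconj2, hDm, hhol⟩ := H1 g (fun z hz => by
      obtain ⟨k, hk, hk2⟩ := hg z hz
      exact Pool.Agent.Helper23V.hol_of_chart hk hk2) hgW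
    exact ⟨pol x' 0, pol x' 1, sp x', φ, step x' φ hx' hcl' hφ hconj hhol, hconj2, hDm, hhyp⟩
  · rintro ⟨N, hN, hall⟩
    obtain ⟨m, rfl⟩ : ∃ m, N = m + d := ⟨N - d, by omega⟩
    obtain ⟨H, hH, hm, hz, hi⟩ : ∃ H : Polynomial ℂ, H ≠ 0 ∧ H.natDegree ≤ m ∧
        (∀ z : ℂ, H.eval z = 0 → OnePoint.some z ∈ K) ∧
        (H.natDegree < m → OnePoint.infty ∈ K) := by
      obtain ⟨a, ha⟩ := hKn
      induction a using OnePoint.rec with
      | infty =>
        refine ⟨1, one_ne_zero, by simp, fun z hz => ?_, fun _ => ha⟩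
        rw [Polynomial.eval_one] at hz
        exact absurd hz one_ne_zero
      | coe a =>
        refine ⟨(Polynomial.X - Polynomial.C a) ^ m, pow_ne_zero _ (Polynomial.X_sub_C_ne_zero a),
          by simp, fun z hz => ?_, fun h => ?_⟩
        · rw [Polynomial.eval_pow, Polynomial.eval_sub, Polynomial.eval_X, Polynomial.eval_C] at hz
          have h3 : z = a := sub_eq_zero.1 ((pow_eq_zero_iff (by
            rintro rfl
            simp at hz)).1 hz)
          rw [h3]
          exact ha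
        · simp at h
    refine part2 m H hH hm hz hi fun η hη => ?_
    have hD1 : 1 ≤ m + d := by omega
    have hdP : (H * P).natDegree ≤ m + d := Polynomial.natDegree_mul_le.trans
      (add_le_add hm (by rw [← hPQ.2]; exact le_max_left _ _))
    have hdQ : (H * Q).natDegree ≤ m + d := Polynomial.natDegree_mul_le.trans
      (add_le_add hm (by rw [← hPQ.2]; exact le_max_right _ _))
    obtain ⟨P₀, Q₀, hc, hdeg, hcl⟩ := Pool.Agent.R239.Fat.coprime_near hD1 hdP hdQ (half_pos hη)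
    obtain ⟨P₁, Q₁, g, g1, g2, g3, g4⟩ := hall P₀ Q₀ ⟨hc, hdeg⟩ (η / 2) (half_pos hη)
    refine ⟨P₁, Q₁, g, g1, fun i => ⟨?_, ?_⟩, g3, g4⟩
    · have e := norm_add_le (P₁.coeff i - P₀.coeff i) (P₀.coeff i - (H * P).coeff i)
      rw [sub_add_sub_cancel] at e
      linarith [(g2 i).1, (hcl i).1]
    · have e := norm_add_le (Q₁.coeff i - Q₀.coeff i) (Q₀.coeff i - (H * Q).coeff i)
      rw [sub_add_sub_cancel] at e
      linarith [(g2 i).2, (hcl i).2]

end Pool.Agent.Results.MP_8f2e1c_an.ApproximationOffBasins
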