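import Mathlib
import Pool.Agent.Helper39.MB.Prob

set_option autoImplicit false

open Polynomial Filter Topology MeasureTheory
open scoped OnePoint

namespace Pool.Agent.Results.MP_8f2e1c_an.MoebiusOrbits

/-- `f` is the self-map of the Riemann sphere given by the rational function `P / Q` of degree `d`,
in lowest terms. -/
def IsRational (d : ℕ) (P Q : Polynomial ℂ) (f : OnePoint ℂ → OnePoint ℂ) : Prop :=
  IsCoprime P Q ∧ max P.natDegree Q.natDegree = d ∧ Continuous f ∧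
    ∀ z : ℂ, Q.eval z ≠ 0 → f (OnePoint.some z) = OnePoint.some (P.eval z / Q.eval z)

/-- Every critical point has an orbit converging to an attracting periodic cycle. This is word for
word the condition of the frozen statement `S05373`. -/
def Hyperbolic (f : OnePoint ℂ → OnePoint ℂ) : Prop :=
  ∀ c : OnePoint ℂ, (¬ ∃ U ∈ nhds c, Set.InjOn f U) →
    ∃ z : OnePoint ℂ, ∃ n : ℕ, 0 < n ∧ f^[n] z = z ∧
      (∃ U ∈ nhds z, ∀ w ∈ U,
        Filter.Tendsto (fun k : ℕ => f^[n * k] w) Filter.atTop (nhds z)) ∧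
      Filter.Tendsto (fun k : ℕ => f^[n * k] c) Filter.atTop (nhds z)

/-- Two by two matrices, as pairs of columns: `((a, c), (b, e))` has the rows `(a, b)`, `(c, e)`.
The norm is the maximum of the moduli of the entries. -/
abbrev Mat : Type := (ℂ × ℂ) × (ℂ × ℂ)

/-- the determinant `a * e - b * c` -/
def det (m : Mat) : ℂ := m.1.1 * m.2.2 - m.2.1 * m.1.2

/-- the Moebius map `z ↦ (a * z + b) / (c * z + e)` of the sphere -/
noncomputable def moebius (m : Mat) : OnePoint ℂ → OnePoint ℂ :=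
  open Classical in fun z =>
  match z with
  | none => if m.1.2 = 0 then ∞ else OnePoint.some (m.1.1 / m.1.2)
  | some z => if m.1.2 * z + m.2.2 = 0 then ∞ else
      OnePoint.some ((m.1.1 * z + m.2.1) / (m.1.2 * z + m.2.2))

/-- the invertible matrices of the unit ball with distance from the singular matrices, measured by
`|det m| / ‖m‖ ^ 2`, at most `ε` -/
def Near (ε : ℝ) : Set Mat := {m | ‖m‖ ≤ 1 ∧ det m ≠ 0 ∧ ‖det m‖ ≤ ε * ‖m‖ ^ 2}

/-- the chordal distance (the sphere has diameter one) -/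
noncomputable def chordal (z w : OnePoint ℂ) : ℝ :=
  match z, w with
  | none, none => 0
  | none, some w => 1 / √(1 + ‖w‖ ^ 2)
  | some z, none => 1 / √(1 + ‖z‖ ^ 2)
  | some z, some w => ‖z - w‖ / (√(1 + ‖z‖ ^ 2) * √(1 + ‖w‖ ^ 2))

/-- `f` is Lipschitz with constant `L` for the chordal distance -/
def Lip (L : ℝ) (f : OnePoint ℂ → OnePoint ℂ) : Prop :=
  ∀ z w, chordal (f z) (f w) ≤ L * chordal z w

/-- The nonempty words in the maps `moebius (m j) ∘ f i`, that is, the elements of the semigroup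
generated by these maps. -/
inductive Word {k l : ℕ} (m : Fin l → Mat) (f : Fin k → OnePoint ℂ → OnePoint ℂ) :
    (OnePoint ℂ → OnePoint ℂ) → Prop
  | one (j : Fin l) (i : Fin k) : Word m f (moebius (m j) ∘ f i)
  | comp (j : Fin l) (i : Fin k) {g : OnePoint ℂ → OnePoint ℂ} (h : Word m f g) :
      Word m f (moebius (m j) ∘ f i ∘ g)

open Pool.Agent.Helper39.MB in
theorem moebius_eq {m : Mat} (h : det m ≠ 0) : moebius m = mo m := by
  funext z
  have h' : m.1.1 * m.2.2 - m.2.1 * m.1.2 ≠ 0 := h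
  induction z using OnePoint.rec with
  | infty =>
    show (if m.1.2 = 0 then ∞ else OnePoint.some (m.1.1 / m.1.2)) = _
    unfold mo
    rw [Pool.Agent.R239.Fat.mob_inf h']
    by_cases h1 : m.1.2 = 0
    · rw [if_pos h1]
      exact (Pool.Agent.H790R3.RB.SP.pr_zero (p := (m.1.1, m.1.2)) h1).symm
    · rw [if_neg h1]
      exact (Pool.Agent.H790R3.RB.SP.pr_ne (p := (m.1.1, m.1.2)) h1).symm
  | coe z =>
    show (if m.1.2 * z + m.2.2 = 0 then ∞ else
      OnePoint.some ((m.1.1 * z + m.2.1) / (m.1.2 * z + m.2.2))) = _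
    unfold mo
    by_cases h1 : m.1.2 * z + m.2.2 = 0
    · rw [if_pos h1, Pool.Agent.R239.Fat.mob_coe_inf h' h1]
    · rw [if_neg h1, Pool.Agent.R239.Fat.mob_coe h' h1]

open Pool.Agent.Helper39.MB in
theorem chordal_eq (z w : OnePoint ℂ) : chordal z w = chd z w := by
  induction z using OnePoint.rec with
  | infty =>
    induction w using OnePoint.rec with
    | infty =>
      show (0 : ℝ) = _
      unfold chd Pool.Agent.H790R3.RB.cr
      rw [Pool.Agent.H790R3.RB.SP.hc_infty]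
      simp
    | coe w =>
      show 1 / √(1 + ‖w‖ ^ 2) = _
      unfold chd nE Pool.Agent.H790R3.RB.cr
      rw [Pool.Agent.H790R3.RB.SP.hc_infty, Pool.Agent.H790R3.RB.SP.hc_coe]
      simp [add_comm]
  | coe z =>
    induction w using OnePoint.rec with
    | infty =>
      show 1 / √(1 + ‖z‖ ^ 2) = _
      unfold chd nE Pool.Agent.H790R3.RB.cr
      rw [Pool.Agent.H790R3.RB.SP.hc_infty, Pool.Agent.H790R3.RB.SP.hc_coe]
      simp [add_comm]
    | coe w =>
      show ‖z - w‖ / (√(1 + ‖z‖ ^ 2) * √(1 + ‖w‖ ^ 2)) = _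
      unfold chd nE Pool.Agent.H790R3.RB.cr
      rw [Pool.Agent.H790R3.RB.SP.hc_coe, Pool.Agent.H790R3.RB.SP.hc_coe]
      simp [add_comm]

theorem coeffs {d : ℕ} (hd : 1 ≤ d) {P Q : Polynomial ℂ} {f : OnePoint ℂ → OnePoint ℂ}
    (hf : IsRational d P Q f) : ∃ x : Pool.Agent.H790R3.RB.CV d, Pool.Agent.H790R3.RB.ND x ∧
      Pool.Agent.H790R3.RB.pol x 0 = P ∧ Pool.Agent.H790R3.RB.pol x 1 = Q ∧
      f = Pool.Agent.H790R3.RB.sp x := by
  obtain ⟨x, h1, h2, h3, h⟩ := (Pool.Agent.H790R3.RB.PQ Pool.Agent.H790R3.RB.SP d hd).2 P Q hf.1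
    hf.2.1
  exact ⟨x, h1, h2, h3, h f hf.2.2.1 hf.2.2.2⟩

open Pool.Agent.Helper39.MB in
theorem word_wd {k l : ℕ} {m : Fin l → Mat} {f : Fin k → OnePoint ℂ → OnePoint ℂ}
    (hm : ∀ j, det (m j) ≠ 0) {g : OnePoint ℂ → OnePoint ℂ} (hg : Word m f g) : Wd m f g := by
  induction hg with
  | one j i =>
    rw [moebius_eq (hm j)]
    exact Wd.one j i
  | comp j i _ ih =>
    rw [moebius_eq (hm j)]
    exact Wd.comp j i ih

/-- Moebius maps composed with rational maps are rational maps of the same degree. -/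
theorem rational {d : ℕ} (hd : 1 ≤ d) {P Q : Polynomial ℂ} {f : OnePoint ℂ → OnePoint ℂ}
    (hf : IsRational d P Q f) {m : Mat} (hm : det m ≠ 0) :
    IsRational d (C m.1.1 * P + C m.2.1 * Q) (C m.1.2 * P + C m.2.2 * Q) (moebius m ∘ f) := by
  obtain ⟨x, hx, rfl, rfl, rfl⟩ := coeffs hd hf
  refine ⟨Pool.Agent.R239.Fat.coprime_comb' hf.1 hm,
    Pool.Agent.R239.Fat.degree_comb' hd hf.2.1 hm, ?_, fun z hz => ?_⟩
  · rw [moebius_eq hm]
    exact (Pool.Agent.R239.Fat.mob_cont hm).comp hf.2.2.1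
  · rw [moebius_eq hm]
    exact Pool.Agent.R239.Fat.mob_sp' hx hm hz

theorem main {k l : ℕ} {d : Fin k → ℕ} {P Q : Fin k → Polynomial ℂ}
    {f : Fin k → OnePoint ℂ → OnePoint ℂ} {L ε : ℝ}
    (hf : ∀ i, 1 ≤ d i ∧ IsRational (d i) (P i) (Q i) (f i)) (hL : 0 < L) (hLip : ∀ i, Lip L (f i))
    (hε : 0 < ε) (hε1 : ε ≤ 1) :
    volume {m : Fin l → Mat | (∀ j, m j ∈ Near ε) ∧ ∃ g, Word m f g ∧ ¬ Hyperbolic g} ≤
      ENNReal.ofReal (10 ^ 8 * L * (∑ i, d i : ℕ) * l ^ 2 * ε) * volume (Near ε) ^ l := by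
  choose x hx _ _ hfx using fun i => coeffs (hf i).1 (hf i).2
  obtain rfl : f = fun i => Pool.Agent.H790R3.RB.sp (x i) := funext hfx
  refine le_trans (measure_mono ?_) (Pool.Agent.Helper39.MB.prob (l := l) (fun i => (hf i).1) hx hL
    (fun i z w => ?_) hε hε1)
  · rintro m ⟨hm, g, hg, hng⟩
    exact ⟨hm, g, word_wd (fun j => (hm j).2.1) hg, hng⟩
  · rw [← chordal_eq, ← chordal_eq]
    exact hLip i z w

theorem exists_lip {d : ℕ} {P Q : Polynomial ℂ} {f : OnePoint ℂ → OnePoint ℂ} (hd : 1 ≤ d)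
    (hf : IsRational d P Q f) : ∃ L : ℝ, 0 < L ∧ Lip L f := by
  obtain ⟨x, hx, -, -, rfl⟩ := coeffs hd hf
  obtain ⟨L, hL, h⟩ := Pool.Agent.Helper39.MB.exists_lip hx
  refine ⟨L, hL, fun z w => ?_⟩
  rw [chordal_eq, chordal_eq]
  exact h z w

/-- **Moebius orbits of rational maps near the singular matrices.** Let `Near ε` be the set of the
invertible matrices `m` with `‖m‖ ≤ 1` and `|det m| ≤ ε * ‖m‖ ^ 2`. Let `f 0, …, f (k - 1)` be
rational maps of degrees `d i ≥ 1`. They are Lipschitz for the chordal distance. If `L` is a common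
Lipschitz constant then for all tuples `(m 0, …, m (l - 1))` in `Near ε`, except for a set of relative
volume at most `10 ^ 8 * L * (∑ i, d i) * l ^ 2 * ε`, all the elements of the semigroup generated by
the maps `moebius (m j) ∘ f i` are hyperbolic.

The case `k = l = 1`: for a rational map `f` of degree `d ≥ 1` the proportion of the matrices `m` in
`Near ε` for which the rational map `moebius m ∘ f` of degree `d` (or an iterate) is not hyperbolic
is at most `10 ^ 8 * L * d * ε`, hence tends to `0` with `ε`. -/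
theorem result (k l : ℕ) (d : Fin k → ℕ) (P Q : Fin k → Polynomial ℂ)
    (f : Fin k → OnePoint ℂ → OnePoint ℂ)
    (hf : ∀ i, 1 ≤ d i ∧ IsRational (d i) (P i) (Q i) (f i)) :
    (∃ L : ℝ, 0 < L ∧ ∀ i, Lip L (f i)) ∧
    ∀ L ε : ℝ, 0 < L → (∀ i, Lip L (f i)) → 0 < ε → ε ≤ 1 →
      0 < volume (Near ε) ∧ volume (Near ε) < ⊤ ∧
      volume {m : Fin l → Mat | (∀ j, m j ∈ Near ε) ∧ ∃ g, Word m f g ∧ ¬ Hyperbolic g} ≤
        ENNReal.ofReal (10 ^ 8 * L * (∑ i, d i : ℕ) * l ^ 2 * ε) * volume (Near ε) ^ l := by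
  refine ⟨?_, fun L ε hL hLip hε hε1 => ⟨?_, ?_, main hf hL hLip hε hε1⟩⟩
  · choose L hL hLip using fun i => exists_lip (hf i).1 (hf i).2
    refine ⟨1 + ∑ i, L i, by
      have := Finset.sum_nonneg (s := Finset.univ) fun i _ => (hL i).le
      linarith, fun i z w => ?_⟩
    have h1 : L i ≤ ∑ i, L i := Finset.single_le_sum (fun i _ => (hL i).le) (Finset.mem_univ i)
    have h2 : 0 ≤ chordal z w := by
      rw [chordal_eq]
      exact Pool.Agent.Helper39.MB.chd_nonneg z w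
    exact (hLip i z w).trans (mul_le_mul_of_nonneg_right (by linarith) h2)
  · refine lt_of_lt_of_le ?_ (Pool.Agent.Helper39.MB.nr_lower hε hε1)
    rw [ENNReal.ofReal_pos]
    positivity
  · exact lt_of_le_of_lt (Pool.Agent.Helper39.MB.nr_upper hε.le) ENNReal.ofReal_lt_top

end Pool.Agent.Results.MP_8f2e1c_an.MoebiusOrbits
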