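import Mathlib
import Pool.Agent.Helper23U.EndU

/-! The distance of a rational map `f` to the hyperbolic maps in a dynamical slice, that is, to the
hyperbolic maps of the same degree which are conformally conjugate to `f` near a given compact set of
attracted points (so that all its attracting cycles may be kept, with their multipliers): it is
locally at most `C η (1 + log (1 / η))` if `η` is the distance of `f` to all hyperbolic maps, and at
most `C a ^ γ` for every `γ < 1 / 2` if `a` is the spherical area of the Julia set of `f` together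
with the preimages of its Herman rings. -/

set_option autoImplicit false

open Topology Filter MeasureTheory Metric

namespace Pool.Agent.Results.MP_8f2e1c_an.SliceDistance

/-- `f` is the rational map `P / Q` on the Riemann sphere. -/
def IsRationalMap (P Q : Polynomial ℂ) (f : OnePoint ℂ → OnePoint ℂ) : Prop :=
  Continuous f ∧ ∀ z : ℂ, Q.eval z ≠ 0 →
    f (OnePoint.some z) = OnePoint.some (P.eval z / Q.eval z)

/-- `P / Q` is a rational map of degree `d`. -/
def HasDegree (d : ℕ) (P Q : Polynomial ℂ) : Prop :=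
  IsCoprime P Q ∧ max P.natDegree Q.natDegree = d

/-- The coefficients of `P' / Q'` are at distance less than `ε` from those of `P / Q`. -/
def Close (ε : ℝ) (P Q P' Q' : Polynomial ℂ) : Prop :=
  ∀ i : ℕ, ‖P'.coeff i - P.coeff i‖ < ε ∧ ‖Q'.coeff i - Q.coeff i‖ < ε

/-- `a` is a point of an attracting cycle of `f` whose period divides `n`: `f^n` fixes `a` and the
iterates of `f^n` converge to `a` uniformly on a neighbourhood of `a`. -/
def IsSink (f : OnePoint ℂ → OnePoint ℂ) (n : ℕ) (a : OnePoint ℂ) : Prop :=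
  0 < n ∧ f^[n] a = a ∧
    ∃ U ∈ nhds a, ∀ V ∈ nhds a, ∀ᶠ k : ℕ in Filter.atTop, ∀ w ∈ U, f^[n * k] w ∈ V

/-- `z` is in the basin of an attracting cycle of `f`. -/
def Attracted (f : OnePoint ℂ → OnePoint ℂ) (z : OnePoint ℂ) : Prop :=
  ∃ (n : ℕ) (a : OnePoint ℂ), IsSink f n a ∧
    Filter.Tendsto (fun k : ℕ => f^[n * k] z) Filter.atTop (nhds a)

/-- A local coordinate at the point `a` of the sphere, with `chart a 0 = a`: for `a = ∞` it is
`w ↦ 1 / w`, and for a point `a` of the plane it is `w ↦ a + w`. -/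
noncomputable def chart (a : OnePoint ℂ) (w : ℂ) : OnePoint ℂ :=
  match a with
  | none => open Classical in if w = 0 then OnePoint.infty else OnePoint.some w⁻¹
  | some a => OnePoint.some (a + w)

/-- `f^p` fixes `a`, with multiplier `ρ` (the derivative of `f^p` at `a` in the local
coordinate). -/
def HasMultiplier (f : OnePoint ℂ → OnePoint ℂ) (p : ℕ) (a : OnePoint ℂ) (ρ : ℂ) : Prop :=
  ∃ g : ℂ → ℂ, g 0 = 0 ∧ HasDerivAt g ρ 0 ∧
    ∀ᶠ w in nhds (0 : ℂ), f^[p] (chart a w) = chart a (g w)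

/-- `φ` is conformal at `a`: in the local coordinates at `a` and `φ a` it is an analytic function
with nonzero derivative. -/
def ConformalAt (φ : OnePoint ℂ → OnePoint ℂ) (a : OnePoint ℂ) : Prop :=
  ∃ g : ℂ → ℂ, AnalyticAt ℂ g 0 ∧ g 0 = 0 ∧ deriv g 0 ≠ 0 ∧
    ∀ᶠ w in nhds (0 : ℂ), φ (chart a w) = chart (φ a) (g w)

/-- `z` is in the basin of a parabolic cycle: for some `p` the points `f^(p k) (z)` converge to a
fixed point `a` of `f^p` of multiplier `1`, and are different from `a`. -/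
def ParabolicBasin (f : OnePoint ℂ → OnePoint ℂ) (z : OnePoint ℂ) : Prop :=
  ∃ (p : ℕ) (a : OnePoint ℂ), 0 < p ∧ HasMultiplier f p a 1 ∧
    Filter.Tendsto (fun k : ℕ => f^[p * k] z) Filter.atTop (nhds a) ∧ ∀ k : ℕ, f^[p * k] z ≠ a

/-- `h` is a holomorphic map from the disc of radius `r` to the sphere. -/
def HolomorphicOnDisc (h : ℂ → OnePoint ℂ) (r : ℝ) : Prop :=
  ∀ w₀ ∈ ball (0 : ℂ) r, ∃ g : ℂ → ℂ, AnalyticAt ℂ g w₀ ∧
    ∀ᶠ w in nhds w₀, h w = chart (h w₀) (g w)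

/-- `z` is mapped by some iterate of `f` into a Siegel disc: an injective holomorphic map `h` of a
disc to the sphere conjugates `f^p` to an irrational rotation. -/
def SiegelBasin (f : OnePoint ℂ → OnePoint ℂ) (z : OnePoint ℂ) : Prop :=
  ∃ (n p : ℕ) (r : ℝ) (ρ : ℂ) (h : ℂ → OnePoint ℂ), 0 < p ∧ 0 < r ∧ ‖ρ‖ = 1 ∧
    (∀ m : ℕ, 0 < m → ρ ^ m ≠ 1) ∧ HolomorphicOnDisc h r ∧ Set.InjOn h (ball 0 r) ∧
    (∀ w ∈ ball (0 : ℂ) r, f^[p] (h w) = h (ρ * w)) ∧ f^[n] z ∈ h '' ball 0 r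

/-- The points of the plane which are not in the basin of an attracting or parabolic cycle and are
not mapped into a Siegel disc. By the classification of the Fatou components this is the part in
the plane of the union of the Julia set and the preimages of the Herman rings. -/
def JuliaHerman (f : OnePoint ℂ → OnePoint ℂ) : Set ℂ :=
  {z : ℂ | ¬ Attracted f (OnePoint.some z) ∧ ¬ ParabolicBasin f (OnePoint.some z) ∧
    ¬ SiegelBasin f (OnePoint.some z)}

/-- Spherical area. -/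
noncomputable def sphericalArea (E : Set ℂ) : ENNReal :=
  ∫⁻ z in E, ENNReal.ofReal (1 / (1 + ‖z‖ ^ 2) ^ 2)

/-- All critical points are attracted: word for word the condition of the frozen statement
S05373. -/
def Hyperbolic (f : OnePoint ℂ → OnePoint ℂ) : Prop :=
  ∀ c : OnePoint ℂ, (¬ ∃ U ∈ nhds c, Set.InjOn f U) →
    ∃ z : OnePoint ℂ, ∃ n : ℕ, 0 < n ∧ f^[n] z = z ∧
      (∃ U ∈ nhds z, ∀ w ∈ U,
        Filter.Tendsto (fun k : ℕ => f^[n * k] w) Filter.atTop (nhds z)) ∧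
      Filter.Tendsto (fun k : ℕ => f^[n * k] c) Filter.atTop (nhds z)

/-- `φ` is a conformal conjugacy from `f` to `f'` on the set `V`, and multipliers are kept. -/
def ConjugacyOn (V : Set (OnePoint ℂ)) (φ : OnePoint ℂ → OnePoint ℂ)
    (f f' : OnePoint ℂ → OnePoint ℂ) : Prop :=
  (∀ z ∈ V, f' (φ z) = φ (f z)) ∧ (∀ z ∈ V, ConformalAt φ z) ∧
    ∀ (n : ℕ) (a : OnePoint ℂ) (ρ : ℂ), a ∈ V → HasMultiplier f n a ρ → HasMultiplier f' n (φ a) ρ

/-- The chordal distance on the sphere (the diameter of the sphere is one). -/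
noncomputable def chordal (z w : OnePoint ℂ) : ℝ :=
  match z, w with
  | none, none => 0
  | none, some w => 1 / Real.sqrt (1 + ‖w‖ ^ 2)
  | some z, none => 1 / Real.sqrt (1 + ‖z‖ ^ 2)
  | some z, some w => ‖z - w‖ / (Real.sqrt (1 + ‖z‖ ^ 2) * Real.sqrt (1 + ‖w‖ ^ 2))

/-- Within distance `ε` of `f = P / Q` there is a hyperbolic rational map `f'` of degree `d` which is
conformally conjugate to `f` on `V`, by a homeomorphism of the sphere which moves no point by more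
than `ε`. -/
def NearInSlice (d : ℕ) (V : Set (OnePoint ℂ)) (P Q : Polynomial ℂ) (f : OnePoint ℂ → OnePoint ℂ)
    (ε : ℝ) : Prop :=
  ∃ (P' Q' : Polynomial ℂ) (f' : OnePoint ℂ → OnePoint ℂ) (φ : OnePoint ℂ ≃ₜ OnePoint ℂ),
    HasDegree d P' Q' ∧
    (∀ i : ℕ, ‖P'.coeff i - P.coeff i‖ ≤ ε ∧ ‖Q'.coeff i - Q.coeff i‖ ≤ ε) ∧
    IsRationalMap P' Q' f' ∧ Hyperbolic f' ∧ (∀ z, chordal z (φ z) ≤ ε) ∧ ConjugacyOn V φ f f'

/-- Let `f₀ = P₀ / Q₀` be a rational map of degree `d ≥ 2` and let `K` be a compact set of points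
which are attracted by attracting cycles of `f₀`. There is an open set `V` which contains `K` such
that for all rational maps `f = P / Q` of degree `d` which are close enough to `f₀` the set `V` is
mapped into itself, its points are attracted, and

(1) if there is a hyperbolic rational map `g` of degree `d` at distance less than `η < δ` from `f`,
then there is one at distance at most `C η (1 + log (1 / η))` from `f` which is conformally
conjugate to `f` on `V`;

(2) if `0 < γ < 1 / 2` and if the spherical area of the union of the Julia set of `f` and the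
preimages of its Herman rings is less than `a < δ` (where `δ` and `C` depend on `γ`), then there is a
hyperbolic rational map of degree `d` at distance at most `C a ^ γ` from `f` which is conformally
conjugate to `f` on `V`. -/
theorem result (d : ℕ) (hd : 2 ≤ d) (P₀ Q₀ : Polynomial ℂ) (h₀ : HasDegree d P₀ Q₀)
    (f₀ : OnePoint ℂ → OnePoint ℂ) (hf₀ : IsRationalMap P₀ Q₀ f₀) (K : Set (OnePoint ℂ))
    (hK : IsCompact K) (hKa : ∀ z ∈ K, Attracted f₀ z) :
    ∃ V : Set (OnePoint ℂ), IsOpen V ∧ K ⊆ V ∧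
      (∃ C δ : ℝ, 0 < C ∧ 0 < δ ∧ ∀ (P Q : Polynomial ℂ) (f : OnePoint ℂ → OnePoint ℂ),
        HasDegree d P Q → Close δ P₀ Q₀ P Q → IsRationalMap P Q f →
          (∀ z ∈ V, f z ∈ V ∧ Attracted f z) ∧
          ∀ (η : ℝ) (P₁ Q₁ : Polynomial ℂ) (g : OnePoint ℂ → OnePoint ℂ), η < δ →
            HasDegree d P₁ Q₁ → Close η P Q P₁ Q₁ → IsRationalMap P₁ Q₁ g → Hyperbolic g →
            NearInSlice d V P Q f (C * (η * (1 + Real.log (1 / η))))) ∧
      ∀ γ : ℝ, 0 < γ → γ < 1 / 2 → ∃ C δ : ℝ, 0 < C ∧ 0 < δ ∧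
        ∀ (P Q : Polynomial ℂ) (f : OnePoint ℂ → OnePoint ℂ) (a : ℝ),
          HasDegree d P Q → Close δ P₀ Q₀ P Q → IsRationalMap P Q f → a < δ →
          sphericalArea (JuliaHerman f) < ENNReal.ofReal a →
          NearInSlice d V P Q f (C * a ^ γ) := by
  have hd1 : 1 ≤ d := by omega
  obtain ⟨h1, h2⟩ := Pool.Agent.H790R3.RB.PQ Pool.Agent.H790R3.RB.SP d hd1
  obtain ⟨x₀, hx₀, hx00, hx01, hxu⟩ := h2 P₀ Q₀ h₀.1 h₀.2
  have hfx : f₀ = Pool.Agent.H790R3.RB.sp x₀ := hxu f₀ hf₀.1 hf₀.2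
  subst hfx
  obtain ⟨V, D, hV, hD, hKV, hVD, C, η₀, hC, hη₀, hη₀1, N, hN, H⟩ :=
    Pool.Agent.Helper23U.mainU hd hx₀ hK hKa
  obtain ⟨r, hr, hrN⟩ := Metric.mem_nhds_iff.1 hN
  -- close maps
  have hclose : ∀ (P Q P₁ Q₁ : Polynomial ℂ) (x y : Pool.Agent.H790R3.RB.CV d) (δ : ℝ), 0 < δ →
      Pool.Agent.H790R3.RB.pol x 0 = P → Pool.Agent.H790R3.RB.pol x 1 = Q →
      Pool.Agent.H790R3.RB.pol y 0 = P₁ → Pool.Agent.H790R3.RB.pol y 1 = Q₁ →
      Close δ P Q P₁ Q₁ → ‖y - x‖ < δ := by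
    intro P Q P₁ Q₁ x y δ hδ hx0 hx1 hy0 hy1 hcl
    refine Pool.Agent.Helper23T.norm_lt_of_coef hδ fun i j => ?_
    fin_cases i
    · show ‖(Pool.Agent.H790R3.RB.pol y 0).coeff j - (Pool.Agent.H790R3.RB.pol x 0).coeff j‖ < δ
      rw [hy0, hx0]
      exact (hcl j).1
    · show ‖(Pool.Agent.H790R3.RB.pol y 1).coeff j - (Pool.Agent.H790R3.RB.pol x 1).coeff j‖ < δ
      rw [hy1, hx1]
      exact (hcl j).2
  -- the general step
  have step : ∀ x ∈ N, ∀ (P Q : Polynomial ℂ) (y : Pool.Agent.H790R3.RB.CV d) (η : ℝ),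
      Pool.Agent.H790R3.RB.pol x 0 = P → Pool.Agent.H790R3.RB.pol x 1 = Q →
      Pool.Agent.H790R3.RB.ND y → Pool.Agent.H790R3.RB.HypTop (Pool.Agent.H790R3.RB.sp y) →
      0 < η → η ≤ η₀ → ‖y - x‖ ≤ η → ∀ ε : ℝ, C * (η * (1 + Real.log (1 / η))) ≤ ε →
      NearInSlice d V P Q (Pool.Agent.H790R3.RB.sp x) ε := by
    intro x hx P Q y η hx0 hx1 hy hyp hη0 hηle hyx ε hε
    obtain ⟨hxnd, hDV, hDa, hst⟩ := H x hx
    obtain ⟨φ, x', hx', hhyp, hcl, hφ, hconj, -, -, hhol⟩ := hst y hy η hη0 hηle hyx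
    obtain ⟨hcop, hmax, -, -, hev⟩ := h1 x' hx'
    have hl : 0 ≤ Real.log (1 / η) := Real.log_nonneg (by rw [le_div_iff₀ hη0]; linarith)
    have hε0 : 0 ≤ ε := le_trans (by positivity) hε
    have hfV : ∀ z ∈ V, Pool.Agent.H790R3.RB.sp x z ∈ V := fun z hz => hDV z (hVD hz)
    refine ⟨Pool.Agent.H790R3.RB.pol x' 0, Pool.Agent.H790R3.RB.pol x' 1,
      Pool.Agent.H790R3.RB.sp x', φ, ⟨hcop, hmax⟩, fun i => ⟨?_, ?_⟩,
      ⟨(Pool.Agent.H790R3.RB.SP d x' hd1 hx').1, hev⟩, hhyp hyp, fun z => ?_, hconj,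
      fun z hz => Pool.Agent.Helper23T.hol_chart (hhol z hz), fun n a ρ ha hm => ?_⟩
    · rw [← hx0]
      exact Pool.Agent.Helper23U.coef_le hε0 (hcl.trans hε) 0 i
    · rw [← hx1]
      exact Pool.Agent.Helper23U.coef_le hε0 (hcl.trans hε) 1 i
    · have h3 : chordal z (φ z) = Pool.Agent.Helper23U.chordal z (φ z) := by
        induction z using OnePoint.rec with
        | infty => rcases φ OnePoint.infty with _ | w <;> rfl
        | coe z => rcases φ (z : OnePoint ℂ) with _ | w <;> rfl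
      rw [h3]
      exact (hφ z).trans hε
    · exact Pool.Agent.Helper23T.mul_conj hV hfV hconj hhol ha hm
  refine ⟨V, hV, hKV, ⟨C, min r η₀, hC, lt_min hr hη₀, fun P Q f hPQ hcl hf => ?_⟩,
    fun γ hγ hγ2 => ?_⟩
  · obtain ⟨x, hx, hx0, hx1, hxu'⟩ := h2 P Q hPQ.1 hPQ.2
    have hfx : f = Pool.Agent.H790R3.RB.sp x := hxu' f hf.1 hf.2
    subst hfx
    have hxx : ‖x - x₀‖ < min r η₀ := hclose _ _ _ _ x₀ x _ (lt_min hr hη₀) hx00 hx01 hx0 hx1 hcl
    have hxN : x ∈ N := hrN (by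
      rw [mem_ball, dist_eq_norm]
      exact hxx.trans_le (min_le_left _ _))
    obtain ⟨-, hDV, hDa, -⟩ := H x hxN
    refine ⟨fun z hz => ⟨hDV z (hVD hz), hDa z (hVD hz)⟩, fun η P₁ Q₁ g hη hPQ₁ hcl₁ hg hyp => ?_⟩
    have hη0 : 0 < η := (norm_nonneg _).trans_lt (hcl₁ 0).1
    obtain ⟨y, hy, hy0, hy1, hyu⟩ := h2 P₁ Q₁ hPQ₁.1 hPQ₁.2
    have hgy : g = Pool.Agent.H790R3.RB.sp y := hyu g hg.1 hg.2
    subst hgy
    have hyx : ‖y - x‖ < η := hclose _ _ _ _ x y _ hη0 hx0 hx1 hy0 hy1 hcl₁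
    exact step x hxN P Q y η hx0 hx1 hy hyp hη0 (hη.le.trans (min_le_right _ _)) hyx.le _ le_rfl
  · obtain ⟨C', δ', hC', hδ', HA⟩ := Pool.Agent.Helper23U.area_step hd hx₀ hη₀ hC hγ hγ2
    refine ⟨C', min r δ', hC', lt_min hr hδ', fun P Q f a hPQ hcl hf ha har => ?_⟩
    obtain ⟨x, hx, hx0, hx1, hxu'⟩ := h2 P Q hPQ.1 hPQ.2
    have hfx : f = Pool.Agent.H790R3.RB.sp x := hxu' f hf.1 hf.2
    subst hfx
    have hxx : ‖x - x₀‖ < min r δ' := hclose _ _ _ _ x₀ x _ (lt_min hr hδ') hx00 hx01 hx0 hx1 hcl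
    have hxN : x ∈ N := hrN (by
      rw [mem_ball, dist_eq_norm]
      exact hxx.trans_le (min_le_left _ _))
    obtain ⟨y, η, hy, hyp, hη0, hηle, hyx, hle⟩ := HA x hx (hxx.trans_le (min_le_right _ _)) a
      (ha.trans_le (min_le_right _ _)) har
    exact step x hxN P Q y η hx0 hx1 hy hyp hη0 hηle hyx _ hle

end Pool.Agent.Results.MP_8f2e1c_an.SliceDistance
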